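import Pool.Agent.Helper49.KR.St

/-!
# Project KR, module REL
-/

set_option autoImplicit false

namespace Pool.Agent.Helper41.KR

open Finset Filter Topology Module
open Pool.Agent.Helper49.KX Pool.Agent.Helper49.KR

section aux

theorem fam_add {R : Type} [Add R] {q1 q2 : ℕ} (M0 M0' : Matrix (Fin q1) (Fin q1) R)
    (M1 M1' : Matrix (Fin q2) (Fin q2) R) (M2 M2' : Matrix (Fin (q1 + q2)) (Fin (q1 + q2)) R) :
    fam (M0 + M0') (M1 + M1') (M2 + M2') = fun v => fam M0 M1 M2 v + fam M0' M1' M2' v := by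
  funext v
  match v with
  | 0 => rfl
  | 1 => rfl
  | 2 => rfl

theorem fam_mul {R : Type} [Mul R] [AddCommMonoid R] {q1 q2 : ℕ} (M0 M0' : Matrix (Fin q1) (Fin q1) R)
    (M1 M1' : Matrix (Fin q2) (Fin q2) R) (M2 M2' : Matrix (Fin (q1 + q2)) (Fin (q1 + q2)) R) :
    fam (M0 * M0') (M1 * M1') (M2 * M2') = fun v => fam M0 M1 M2 v * fam M0' M1' M2' v := by
  funext v
  match v with
  | 0 => rfl
  | 1 => rfl
  | 2 => rfl

theorem lf_apply (δ1 : ℝ) {r : ℕ} (M : ℝ → Matrix (Fin r) (Fin r) ℂ) (i k : Fin r) (x : Dx X0) :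
    lf δ1 M i k x = M (rp δ1 x) i k := rfl

theorem lf_add (δ1 : ℝ) {r : ℕ} (M M' : ℝ → Matrix (Fin r) (Fin r) ℂ) :
    lf δ1 (fun s => M s + M' s) = lf δ1 M + lf δ1 M' := by
  ext i k x
  rfl

theorem lf_mul (δ1 : ℝ) {r : ℕ} (M M' : ℝ → Matrix (Fin r) (Fin r) ℂ) :
    lf δ1 (fun s => M s * M' s) = lf δ1 M * lf δ1 M' := by
  ext i k x
  rw [lf_apply, Matrix.mul_apply, Matrix.mul_apply, ContinuousMap.coe_sum, Finset.sum_apply]
  rfl

theorem mul_dg {r : ℕ} (M : Matrix (Fin r) (Fin r) ℂ) (κ : Fin r → Fin 4) (t : Fin 4) (i l : Fin r) :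
    (M * dg κ t) i l = if κ l = t then M i l else 0 := by
  unfold dg
  rw [Matrix.mul_diagonal]
  split_ifs <;> simp

/-- the rows of `u (dg κ t) H` in `S` vanish -/
theorem row_zero {r : ℕ} (u H : Matrix (Fin r) (Fin r) ℂ) (κ : Fin r → Fin 4) (t : Fin 4) (S : Finset (Fin r))
    (hu : ∀ i ∈ S, ∀ l, κ l = t → u i l = 0) : ∀ i ∈ S, ∀ k, (u * dg κ t * H) i k = 0 := by
  intro i hi k
  rw [Matrix.mul_apply]
  refine Finset.sum_eq_zero fun l _ => ?_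
  rw [mul_dg]
  split_ifs with h
  · rw [hu i hi l h, zero_mul]
  · rw [zero_mul]

theorem Gm_dg0 {r : ℕ} (κ : Fin r → Fin 4) (u c η : Matrix (Fin r) (Fin r) ℂ) :
    Gm κ u c η * dg κ 0 = c * u * dg κ 0 := by
  ext i l
  rw [mul_dg, mul_dg]
  split_ifs with h1
  · simp only [Gm, h1, if_true]
  · rfl

theorem Gm_dg1 {r : ℕ} (κ : Fin r → Fin 4) (u c η : Matrix (Fin r) (Fin r) ℂ) :
    Gm κ u c η * dg κ 1 + c * u * dg κ 1 = u * dg κ 1 := by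
  ext i l
  rw [Matrix.add_apply, mul_dg, mul_dg, mul_dg]
  split_ifs with h1
  · simp only [Gm, h1, one_ne_zero, if_true, if_false]
    rw [Matrix.sub_apply]
    ring
  · rw [add_zero]

theorem Gm_dg2 {r : ℕ} (κ : Fin r → Fin 4) (u c η : Matrix (Fin r) (Fin r) ℂ) :
    Gm κ u c η * dg κ 2 = η * u * dg κ 2 := by
  ext i l
  rw [mul_dg, mul_dg]
  split_ifs with h1
  · have e0 : (2 : Fin 4) ≠ 0 := by decide
    have e1 : (2 : Fin 4) ≠ 1 := by decide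
    simp only [Gm, h1, e0, e1, if_true, if_false]
  · rfl

theorem cm_cw (θ δ1 : ℝ) (r : ℕ) (f : FS X0) (hE : ∀ (n : ℤ) (x : X0), (embF f n : Dx X0 → ℂ) x = f n x)
    (hH : ∀ (n : ℤ) (x : X0), (hD (rot θ) ^ n : Dx X0 ≃ₜ Dx X0) x = (rot θ ^ n : X0 ≃ₜ X0) x) :
    cm (hD (rot θ)) r (embF f) = lf δ1 (fun s => cw θ r f s) := by
  ext k i x
  rw [lf_apply]
  change (embF f (((k : ℕ) : ℤ) - ((i : ℕ) : ℤ)) : Dx X0 → ℂ) ((hD (rot θ) ^ (((k : ℕ) : ℤ)) : Dx X0 ≃ₜ Dx X0) x) = _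
  have h1 := hH ((k : ℕ) : ℤ) x
  rw [h1, hE, rot_zpow]
  unfold cw
  have h2 : ((rp δ1 x : ℝ) : X0) = x := (AddCircle.equivIco (1 : ℝ) (-δ1)).symm_apply_apply x
  rw [AddCircle.coe_add, h2]
  simp

end aux

theorem tri_mul {r : ℕ} (P G : ℝ → Matrix (Fin r) (Fin r) ℂ) (Z Z' : Matrix (Fin r) (Fin r) ℂ) (s : ℝ)
    (hG : IsUnit (G s)) : tri P G (Z * Z') s = tri P G Z s * tri G G Z' s := by
  unfold tri
  have h1 : (G s)⁻¹ * G s = 1 := Matrix.nonsing_inv_mul _ ((Matrix.isUnit_iff_isUnit_det _).1 hG)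
  calc P s * (Z * Z') * (G s)⁻¹ = P s * Z * 1 * (Z' * (G s)⁻¹) := by
        rw [Matrix.mul_one]
        simp only [Matrix.mul_assoc]
    _ = P s * Z * ((G s)⁻¹ * G s) * (Z' * (G s)⁻¹) := by rw [h1]
    _ = _ := by simp only [Matrix.mul_assoc]

theorem tri_one {r : ℕ} (G : ℝ → Matrix (Fin r) (Fin r) ℂ) (s : ℝ) (hG : IsUnit (G s)) : tri G G 1 s = 1 := by
  unfold tri
  rw [Matrix.mul_one]
  exact Matrix.mul_nonsing_inv _ ((Matrix.isUnit_iff_isUnit_det _).1 hG)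

theorem tri_add {r : ℕ} (P G : ℝ → Matrix (Fin r) (Fin r) ℂ) (Z Z' : Matrix (Fin r) (Fin r) ℂ) (s : ℝ) :
    tri P G (Z + Z') s = tri P G Z s + tri P G Z' s := by
  unfold tri
  rw [Matrix.mul_add, Matrix.add_mul]

theorem lf_one (δ1 : ℝ) (r : ℕ) : lf δ1 (fun _ => (1 : Matrix (Fin r) (Fin r) ℂ)) = 1 := by
  ext i k x
  rw [lf_apply, Matrix.one_apply, Matrix.one_apply]
  split_ifs <;> rfl

theorem fam_one (δ1 : ℝ) {q1 q2 : ℕ} :
    fam (lf δ1 (fun _ => (1 : Matrix (Fin q1) (Fin q1) ℂ))) (lf δ1 (fun _ => (1 : Matrix (Fin q2) (Fin q2) ℂ)))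
      (lf δ1 (fun _ => (1 : Matrix (Fin (q1 + q2)) (Fin (q1 + q2)) ℂ))) = fun _ => 1 := by
  rw [lf_one, lf_one, lf_one]
  funext v
  match v with
  | 0 => rfl
  | 1 => rfl
  | 2 => rfl

theorem fam_cm (θ δ1 : ℝ) {q1 q2 : ℕ} (f : FS X0) (hE : ∀ (n : ℤ) (x : X0), (embF f n : Dx X0 → ℂ) x = f n x)
    (hH : ∀ (n : ℤ) (x : X0), (hD (rot θ) ^ n : Dx X0 ≃ₜ Dx X0) x = (rot θ ^ n : X0 ≃ₜ X0) x)
    (M0 : ℝ → Matrix (Fin q1) (Fin q1) ℂ) (M1 : ℝ → Matrix (Fin q2) (Fin q2) ℂ)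
    (M2 : ℝ → Matrix (Fin (q1 + q2)) (Fin (q1 + q2)) ℂ) :
    fam (lf δ1 (fun s => cw θ q1 f s * M0 s)) (lf δ1 (fun s => cw θ q2 f s * M1 s))
      (lf δ1 (fun s => cw θ (q1 + q2) f s * M2 s)) =
      fun v => cm (hD (rot θ)) (rb q1 q2 v) (embF f) * fam (lf δ1 M0) (lf δ1 M1) (lf δ1 M2) v := by
  rw [lf_mul, lf_mul, lf_mul, ← cm_cw θ δ1 q1 f hE hH, ← cm_cw θ δ1 q2 f hE hH, ← cm_cw θ δ1 (q1 + q2) f hE hH]
  funext v
  match v with
  | 0 => rfl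
  | 1 => rfl
  | 2 => rfl

theorem dg1_eq {r : ℕ} (κ : Fin r → Fin 4) (u c η H : Matrix (Fin r) (Fin r) ℂ) :
    u * dg κ 1 * H = Gm κ u c η * dg κ 1 * H + c * (u * dg κ 1 * H) := by
  have h := congrArg (fun M => M * H) (Gm_dg1 κ u c η)
  simp only [Matrix.add_mul, Matrix.mul_assoc] at h ⊢
  exact h.symm

theorem hREL : StRel := by
  intro hEvm hBbm hBba hEmb hBsm hWmt θ δ1 δ2 ε q1 q2 N N' g y κ0 κ1 σ0 σ1 u0 u1 u2 hR hε h4 h4' hg hy hDt hT A _ _ j U hcov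
  obtain ⟨hB1, hBadd, hBmul, hBcongr⟩ := hBbm hEvm (Dx X0) (hD (rot θ)) A j U hcov 3 (Yb δ1 δ2 ε) (rb q1 q2) hT
  have hBba' := hBba hEvm (Dx X0) (hD (rot θ)) A j U hcov 3 (Yb δ1 δ2 ε) (rb q1 q2) hT
  obtain ⟨-, -, -, -, -, hH, hE⟩ := hEmb X0 (rot θ)
  obtain ⟨bev, hbev⟩ : ∃ bev : (ℝ → Matrix (Fin q1) (Fin q1) ℂ) → (ℝ → Matrix (Fin q2) (Fin q2) ℂ) →
      (ℝ → Matrix (Fin (q1 + q2)) (Fin (q1 + q2)) ℂ) → A, ∀ M0 M1 M2, bev M0 M1 M2 = ev j U (be θ δ1 δ2 ε M0 M1 M2) :=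
    ⟨_, fun _ _ _ => rfl⟩
  -- congruence
  have hc : ∀ (M0 M0' : ℝ → Matrix (Fin q1) (Fin q1) ℂ) (M1 M1' : ℝ → Matrix (Fin q2) (Fin q2) ℂ)
      (M2 M2' : ℝ → Matrix (Fin (q1 + q2)) (Fin (q1 + q2)) ℂ), (∀ s, 0 ≤ s → s ≤ δ2 → M0 s = M0' s) →
      (∀ s, -δ1 ≤ s → s ≤ 0 → M1 s = M1' s) → (∀ s, -ε ≤ s → s ≤ ε → M2 s = M2' s) →
      bev M0 M1 M2 = bev M0' M1' M2' := by
    intro M0 M0' M1 M1' M2 M2' h0 h1 h2
    rw [hbev, hbev]
    unfold be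
    rw [hBcongr _ (fam (lf δ1 M0') (lf δ1 M1') (lf δ1 M2'))]
    intro v x hx i k
    match v with
    | 0 =>
      have hx' : rp δ1 x ∈ Set.Ico ε (δ2 - ε) := hx
      change M0 (rp δ1 x) i k = M0' (rp δ1 x) i k
      rw [h0 _ (by linarith [hx'.1]) (by linarith [hx'.2])]
    | 1 =>
      have hx' : rp δ1 x ∈ Set.Ico (-δ1 + ε) (-ε) := hx
      change M1 (rp δ1 x) i k = M1' (rp δ1 x) i k
      rw [h1 _ (by linarith [hx'.1]) (by linarith [hx'.2])]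
    | 2 =>
      have hx' : rp δ1 x ∈ Set.Ico (-ε) ε := hx
      change M2 (rp δ1 x) i k = M2' (rp δ1 x) i k
      rw [h2 _ (by linarith [hx'.1]) (by linarith [hx'.2])]
  have ha : ∀ (M0 M0' : ℝ → Matrix (Fin q1) (Fin q1) ℂ) (M1 M1' : ℝ → Matrix (Fin q2) (Fin q2) ℂ)
      (M2 M2' : ℝ → Matrix (Fin (q1 + q2)) (Fin (q1 + q2)) ℂ),
      bev (fun s => M0 s + M0' s) (fun s => M1 s + M1' s) (fun s => M2 s + M2' s) = bev M0 M1 M2 + bev M0' M1' M2' := by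
    intro M0 M0' M1 M1' M2 M2'
    rw [hbev, hbev, hbev]
    unfold be
    rw [lf_add, lf_add, lf_add, fam_add]
    exact hBadd _ _
  have hm : ∀ (M0 M0' : ℝ → Matrix (Fin q1) (Fin q1) ℂ) (M1 M1' : ℝ → Matrix (Fin q2) (Fin q2) ℂ)
      (M2 M2' : ℝ → Matrix (Fin (q1 + q2)) (Fin (q1 + q2)) ℂ),
      bev (fun s => M0 s * M0' s) (fun s => M1 s * M1' s) (fun s => M2 s * M2' s) = bev M0 M1 M2 * bev M0' M1' M2' := by
    intro M0 M0' M1 M1' M2 M2'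
    rw [hbev, hbev, hbev]
    unfold be
    rw [lf_mul, lf_mul, lf_mul, fam_mul]
    exact hBmul _ _
  have h1 : bev (fun _ => 1) (fun _ => 1) (fun _ => 1) = 1 := by
    rw [hbev]
    unfold be
    rw [fam_one]
    exact hB1
  -- action
  have hact : ∀ (f : FS X0) (K : ℕ), Deg f K → ∀ (M0 : ℝ → Matrix (Fin q1) (Fin q1) ℂ) (M1 : ℝ → Matrix (Fin q2) (Fin q2) ℂ)
      (M2 : ℝ → Matrix (Fin (q1 + q2)) (Fin (q1 + q2)) ℂ), (∀ s, ∀ i ∈ SB q1 K, ∀ k, M0 s i k = 0) →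
      (∀ s, ∀ i ∈ SB q2 K, ∀ k, M1 s i k = 0) → (∀ s, ∀ i ∈ SB (q1 + q2) K, ∀ k, M2 s i k = 0) →
      ev j U (embF f) * bev M0 M1 M2 =
        bev (fun s => cw θ q1 f s * M0 s) (fun s => cw θ q2 f s * M1 s) (fun s => cw θ (q1 + q2) f s * M2 s) := by
    intro f K hf M0 M1 M2 h0 h1 h2
    rw [hbev, hbev]
    unfold be
    rw [hBba' (embF f) K (fam (lf δ1 M0) (lf δ1 M1) (lf δ1 M2))]
    · congr 2
      exact (fam_cm θ δ1 f (fun n x => (hEmb X0 (rot θ)).2.2.2.2.2.2 f n x) hH M0 M1 M2).symm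
    · intro m hm
      ext x
      rw [hE, hf m hm]
      rfl
    · intro v x _ i hi k
      match v with
      | 0 => exact h0 _ i hi k
      | 1 => exact h1 _ i hi k
      | 2 => exact h2 _ i hi k
  set G0 := GG θ g y κ0 u0 with hG0
  set G1 := GG θ g y κ1 u1 with hG1
  set G2 := GG θ g y (Fin.append κ0 κ1) u2 with hG2
  have hbs := hBsm q1 q2
  obtain ⟨hbs1, hbs2, -⟩ := hbs
  obtain ⟨-, -, hdg⟩ := hWmt
  refine ⟨fun Z0 Z1 => bev (tri G0 G0 Z0) (tri G1 G1 Z1) (tri G2 G2 (bsm Z0 Z1)),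
    fun Z0 Z1 => bev (tri u0 G0 Z0) (tri u1 G1 Z1) (tri u2 G2 (bsm Z0 Z1)), fun _ _ => hbev _ _ _, fun _ _ => hbev _ _ _,
    ?_, ?_, ?_, ?_, ?_, ?_⟩
  · dsimp only
    rw [← h1, hbs2]
    exact hc _ _ _ _ _ _ (fun s h h' => tri_one G0 s (hDt.g0 s h h')) (fun s h h' => tri_one G1 s (hDt.g1 s h h'))
      (fun s h h' => tri_one G2 s (hDt.g2 s h h'))
  · intro Z0 Z1 Z0' Z1'
    dsimp only
    rw [← ha, (hbs1 Z0 Z0' Z1 Z1').2.1]
    exact hc _ _ _ _ _ _ (fun s _ _ => tri_add _ _ _ _ _) (fun s _ _ => tri_add _ _ _ _ _) (fun s _ _ => tri_add _ _ _ _ _)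
  · intro Z0 Z1 Z0' Z1'
    dsimp only
    rw [← hm, (hbs1 Z0 Z0' Z1 Z1').1]
    exact hc _ _ _ _ _ _ (fun s h h' => tri_mul G0 G0 _ _ s (hDt.g0 s h h')) (fun s h h' => tri_mul G1 G1 _ _ s (hDt.g1 s h h'))
      (fun s h h' => tri_mul G2 G2 _ _ s (hDt.g2 s h h'))
  · dsimp only
    rw [hdg, hact g N hg]
    · refine hc _ _ _ _ _ _ (fun s _ _ => ?_) (fun s _ _ => ?_) (fun s _ _ => ?_)
      · unfold tri
        rw [hG0]
        unfold GG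
        rw [Gm_dg0]
        simp only [Matrix.mul_assoc]
      · unfold tri
        rw [hG1]
        unfold GG
        rw [Gm_dg0]
        simp only [Matrix.mul_assoc]
      · unfold tri
        rw [hG2]
        unfold GG
        rw [Gm_dg0]
        simp only [Matrix.mul_assoc]
    · exact fun s => row_zero _ _ _ _ _ fun i hi l hl => (hDt.m0 s i l).1 (Or.inl hl) hi
    · exact fun s => row_zero _ _ _ _ _ fun i hi l hl => (hDt.m1 s i l).1 (Or.inl hl) hi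
    · exact fun s => row_zero _ _ _ _ _ fun i hi l hl => (hDt.m2 s i l).1 (Or.inl hl) hi
  · dsimp only
    rw [hdg, sub_mul, one_mul, hact g N hg, sub_eq_iff_eq_add, ← ha]
    · refine hc _ _ _ _ _ _ (fun s _ _ => ?_) (fun s _ _ => ?_) (fun s _ _ => ?_)
      · unfold tri
        rw [hG0]
        unfold GG
        exact dg1_eq κ0 (u0 s) (cw θ q1 g s) (cw θ q1 y s) _
      · unfold tri
        rw [hG1]
        unfold GG
        exact dg1_eq κ1 (u1 s) (cw θ q2 g s) (cw θ q2 y s) _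
      · unfold tri
        rw [hG2]
        unfold GG
        exact dg1_eq (Fin.append κ0 κ1) (u2 s) (cw θ (q1 + q2) g s) (cw θ (q1 + q2) y s) _
    · exact fun s => row_zero _ _ _ _ _ fun i hi l hl => (hDt.m0 s i l).1 (Or.inr hl) hi
    · exact fun s => row_zero _ _ _ _ _ fun i hi l hl => (hDt.m1 s i l).1 (Or.inr hl) hi
    · exact fun s => row_zero _ _ _ _ _ fun i hi l hl => (hDt.m2 s i l).1 (Or.inr hl) hi
  · dsimp only
    rw [hdg, hact y N' hy]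
    · refine hc _ _ _ _ _ _ (fun s _ _ => ?_) (fun s _ _ => ?_) (fun s _ _ => ?_)
      · unfold tri
        rw [hG0]
        unfold GG
        rw [Gm_dg2]
        simp only [Matrix.mul_assoc]
      · unfold tri
        rw [hG1]
        unfold GG
        rw [Gm_dg2]
        simp only [Matrix.mul_assoc]
      · unfold tri
        rw [hG2]
        unfold GG
        rw [Gm_dg2]
        simp only [Matrix.mul_assoc]
    · exact fun s => row_zero _ _ _ _ _ fun i hi l hl => (hDt.m0 s i l).2 hl hi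
    · exact fun s => row_zero _ _ _ _ _ fun i hi l hl => (hDt.m1 s i l).2 hl hi
    · exact fun s => row_zero _ _ _ _ _ fun i hi l hl => (hDt.m2 s i l).2 hl hi

end Pool.Agent.Helper41.KR
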